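import Pool.Agent.Work.MP_d01e83_pr.Jump

set_option autoImplicit false

open MeasureTheory ProbabilityTheory Filter Topology
open scoped ENNReal
open Pool.Agent.Work.MP_d01e83_pr

namespace Pool.Agent.Results.MP_d01e83_pr.NoFunctionalLimit

/-- Path space: real continuous functions on `(0, ∞)`, with the topology of uniform convergence
on compact subsets. -/
abbrev PathSpace : Type := C(Set.Ioi (0:ℝ), ℝ)

/-- Path space carries its Borel sigma-algebra. -/
noncomputable instance instMeasurableSpacePathSpace : MeasurableSpace PathSpace := borel PathSpace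

instance instBorelSpacePathSpace : BorelSpace PathSpace := ⟨rfl⟩

/-- The rescaled process `M^(m)(t) = M(m^2 t)/m`, `t ≥ 1/m^2`, as a random continuous path;
for `t ≤ 1/m^2` the path is continued by the constant value `M(1)/m`. -/
noncomputable def rescaledPath (m : ℕ) (ω : Moves) : PathSpace where
  toFun t := maxGroupReal (max 1 ((m:ℝ)^2 * t)) ω / m
  continuous_toFun := (scaledPath m fun k => maxGroup k ω).continuous_toFun

lemma rescaledPath_eq (m : ℕ) :
    rescaledPath m = fun ω => scaledPath m (fun k => maxGroup k ω) := rfl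

lemma measurable_rescaledPath (m : ℕ) : Measurable (rescaledPath m) := by
  rw [rescaledPath_eq]
  exact (continuous_scaledPath m).measurable.comp (measurable_pi_iff.2 measurable_maxGroup)

/-- The law of `M^(m)` on path space. -/
noncomputable def rescaledLaw (m : ℕ) : ProbabilityMeasure PathSpace :=
  ⟨busLaw.map (rescaledPath m),
    Measure.isProbabilityMeasure_map (measurable_rescaledPath m).aemeasurable⟩

lemma rescaledLaw_apply (m : ℕ) {s : Set PathSpace} (hs : MeasurableSet s) :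
    (rescaledLaw m : Measure PathSpace) s = busLaw {ω | rescaledPath m ω ∈ s} := by
  change (busLaw.map (rescaledPath m)) s = _
  rw [Measure.map_apply (measurable_rescaledPath m) hs]; rfl

local instance : LocallyCompactSpace (Set.Ioi (0:ℝ)) := isOpen_Ioi.locallyCompactSpace

/-- The value of the rescaled path at the time `k/m^2`. -/
lemma rescaledPath_at (m k : ℕ) (hm : 1 ≤ m) (hk : 1 ≤ k) (ω : Moves) (t : Set.Ioi (0:ℝ))
    (ht : (t:ℝ) = (k:ℝ) / (m:ℝ)^2) : rescaledPath m ω t = (maxGroup k ω : ℝ) / m := by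
  have hm0 : (m:ℝ) ≠ 0 := by exact_mod_cast (by omega : m ≠ 0)
  have h1 : (m:ℝ)^2 * t = k := by rw [ht]; field_simp
  have h2 : max (1:ℝ) k = k := max_eq_right (by exact_mod_cast hk)
  change maxGroupReal (max 1 ((m:ℝ)^2 * t)) ω / m = _
  rw [h1, h2]
  simp [maxGroupReal, interp]

/-- Paths with an increment at least `ε` over a time distance at most `1/(j+1)` in `[1, A]`. -/
def jumpPaths (A : ℕ) (ε : ℝ) (j : ℕ) : Set PathSpace :=
  {f | ∃ s t : Set.Ioi (0:ℝ), 1 ≤ (s:ℝ) ∧ (s:ℝ) ≤ A ∧ 1 ≤ (t:ℝ) ∧ (t:ℝ) ≤ A ∧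
    |(s:ℝ) - t| ≤ 1 / ((j:ℝ) + 1) ∧ ε ≤ f t - f s}

lemma isCompact_seg (A : ℕ) : IsCompact {s : Set.Ioi (0:ℝ) | 1 ≤ (s:ℝ) ∧ (s:ℝ) ≤ A} := by
  rw [Subtype.isCompact_iff]
  have : ((↑) : Set.Ioi (0:ℝ) → ℝ) '' {s : Set.Ioi (0:ℝ) | 1 ≤ (s:ℝ) ∧ (s:ℝ) ≤ A}
      = Set.Icc 1 (A:ℝ) := by
    ext x
    simp only [Set.mem_image, Set.mem_ofPred_eq, Subtype.exists, Set.mem_Ioi, exists_and_left,
      exists_prop, Set.mem_Icc]
    constructor
    · rintro ⟨y, h1, h2, rfl⟩; exact h1
    · intro h; exact ⟨x, h, by linarith [h.1], rfl⟩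
  rw [this]; exact isCompact_Icc

lemma isClosed_jumpPaths (A : ℕ) (ε : ℝ) (j : ℕ) : IsClosed (jumpPaths A ε j) := by
  set K : Set (Set.Ioi (0:ℝ) × Set.Ioi (0:ℝ)) :=
    ({s : Set.Ioi (0:ℝ) | 1 ≤ (s:ℝ) ∧ (s:ℝ) ≤ A} ×ˢ {s : Set.Ioi (0:ℝ) | 1 ≤ (s:ℝ) ∧ (s:ℝ) ≤ A})
      ∩ {p | |(p.1:ℝ) - p.2| ≤ 1 / ((j:ℝ) + 1)} with hK
  have hKc : IsCompact K := by
    refine ((isCompact_seg A).prod (isCompact_seg A)).inter_right ?_
    exact isClosed_le (by fun_prop) continuous_const
  have : CompactSpace K := isCompact_iff_compactSpace.1 hKc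
  have hcl : IsClosed {q : PathSpace × K | ε ≤ q.1 q.2.1.2 - q.1 q.2.1.1} := by
    refine isClosed_le continuous_const ?_
    refine Continuous.sub ?_ ?_
    · exact continuous_eval.comp (continuous_fst.prodMk
        (continuous_snd.comp (continuous_subtype_val.comp continuous_snd)))
    · exact continuous_eval.comp (continuous_fst.prodMk
        (continuous_fst.comp (continuous_subtype_val.comp continuous_snd)))
  have himg : jumpPaths A ε j
      = Prod.fst '' {q : PathSpace × K | ε ≤ q.1 q.2.1.2 - q.1 q.2.1.1} := by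
    ext f
    simp only [jumpPaths, Set.mem_ofPred_eq, Set.mem_image]
    constructor
    · rintro ⟨s, t, h1, h2, h3, h4, h5, h6⟩
      exact ⟨(f, ⟨(s, t), ⟨⟨h1, h2⟩, ⟨h3, h4⟩⟩, h5⟩), h6, rfl⟩
    · rintro ⟨⟨g, ⟨⟨s, t⟩, ⟨⟨h1, h2⟩, ⟨h3, h4⟩⟩, h5⟩⟩, h6, rfl⟩
      exact ⟨s, t, h1, h2, h3, h4, h5, h6⟩
  rw [himg]
  exact isClosedMap_fst_of_compactSpace _ hcl

lemma antitone_jumpPaths (A : ℕ) (ε : ℝ) : Antitone (jumpPaths A ε) := by
  rintro i j hij f ⟨s, t, h1, h2, h3, h4, h5, h6⟩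
  refine ⟨s, t, h1, h2, h3, h4, h5.trans ?_, h6⟩
  have : (i:ℝ) ≤ j := by exact_mod_cast hij
  exact one_div_le_one_div_of_le (by positivity) (by linarith)

lemma iInter_jumpPaths (A : ℕ) (ε : ℝ) (hε : 0 < ε) : ⋂ j, jumpPaths A ε j = ∅ := by
  by_contra hne
  obtain ⟨f, hf⟩ := Set.nonempty_iff_ne_empty.2 hne
  rw [Set.mem_iInter] at hf
  have huc := (isCompact_seg A).uniformContinuousOn_of_continuous (f.continuous.continuousOn)
  rw [Metric.uniformContinuousOn_iff] at huc
  obtain ⟨δ, hδ, h⟩ := huc ε hε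
  obtain ⟨j, hj⟩ := exists_nat_one_div_lt hδ
  obtain ⟨s, t, h1, h2, h3, h4, h5, h6⟩ := hf j
  have h7 := h t ⟨h3, h4⟩ s ⟨h1, h2⟩ (by
    rw [Subtype.dist_eq, Real.dist_eq, abs_sub_comm]; exact h5.trans_lt hj)
  rw [Real.dist_eq] at h7
  have := le_abs_self (f t - f s)
  linarith

/-- **Disproof of the conjectured convergence.**  The laws of the processes `M^(m)` on `C(0, ∞)`
(uniform convergence on compact subintervals) do not converge weakly as `m → ∞`; in fact no
subsequence of these laws converges. -/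
theorem result (φ : ℕ → ℕ) (hφ : StrictMono φ) :
    ¬ ∃ ν : ProbabilityMeasure PathSpace, Tendsto (fun i => rescaledLaw (φ i)) atTop (𝓝 ν) := by
  rintro ⟨ν, hν⟩
  have hφt : Tendsto φ atTop atTop := hφ.tendsto_atTop
  -- tightness at time one
  let one' : Set.Ioi (0:ℝ) := ⟨1, by simp⟩
  have hF : ∀ b : ℕ, IsClosed {f : PathSpace | (b:ℝ) ≤ f one'} := fun b =>
    isClosed_le continuous_const (continuous_eval_const one')
  obtain ⟨B, hB1, hB⟩ : ∃ B : ℕ, 1 ≤ B ∧
      (ν : Measure PathSpace) {f : PathSpace | (B:ℝ) ≤ f one'} < 1 / 2 := by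
    have hanti : Antitone (fun b : ℕ => {f : PathSpace | (b:ℝ) ≤ f one'}) := by
      intro i j hij f hf
      have : (i:ℝ) ≤ j := by exact_mod_cast hij
      exact this.trans hf
    have hlim := tendsto_measure_iInter_atTop (μ := (ν : Measure PathSpace))
      (fun b => (hF b).measurableSet.nullMeasurableSet) hanti ⟨0, measure_ne_top _ _⟩
    have hemp : ⋂ b : ℕ, {f : PathSpace | (b:ℝ) ≤ f one'} = ∅ := by
      ext f
      simp only [Set.mem_iInter, Set.mem_ofPred_eq, Set.mem_empty_iff_false, iff_false, not_forall,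
        not_le]
      exact exists_nat_gt _
    rw [hemp, measure_empty] at hlim
    have h1 := (hlim.eventually_lt_const (by norm_num : (0:ℝ≥0∞) < 1/2)).and
      (eventually_ge_atTop 1)
    obtain ⟨B, h2, h3⟩ := h1.exists
    exact ⟨B, h3, h2⟩
  have hev1 : ∀ᶠ i in atTop,
      (rescaledLaw (φ i) : Measure PathSpace) {f : PathSpace | (B:ℝ) ≤ f one'} < 1 / 2 := by
    have h1 := ProbabilityMeasure.limsup_measure_closed_le_of_tendsto hν (hF B)
    exact eventually_lt_of_limsup_lt (h1.trans_lt hB)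
  -- the jump event has probability at least 1/8
  have hev2 : ∀ᶠ i in atTop,
      1 / 8 ≤ busLaw (jumpSet ((φ i)^2) (16 * B^2 * (φ i)^2) (φ i / (6 * B))) := by
    filter_upwards [hev1, hφt.eventually_ge_atTop 1] with i hm hm1
    refine prob_jumpSet B (φ i) hB1 hm1 (le_trans ?_ hm.le)
    rw [rescaledLaw_apply (φ i) (hF B).measurableSet]
    refine measure_mono fun ω hω => ?_
    simp only [Set.mem_ofPred_eq] at hω ⊢
    have hm0 : (0:ℝ) < φ i := by exact_mod_cast hm1
    rw [rescaledPath_at (φ i) ((φ i)^2) hm1 (Nat.one_le_pow _ _ hm1) ω one' (by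
      simp only [one']; push_cast; field_simp)]
    rw [le_div_iff₀ hm0]
    exact_mod_cast hω.le
  set A := 16 * B^2 with hA
  have hBpos : (0:ℝ) < B := by exact_mod_cast hB1
  set ε : ℝ := 1 / (6 * B) with hε
  have hεpos : 0 < ε := by rw [hε]; positivity
  -- jumps give steep paths
  have hkey : ∀ j : ℕ, 1 / 8 ≤ (ν : Measure PathSpace) (jumpPaths A ε j) := by
    intro j
    have h1 := ProbabilityMeasure.limsup_measure_closed_le_of_tendsto hν (isClosed_jumpPaths A ε j)
    refine le_trans ?_ h1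
    refine le_limsup_of_frequently_le ?_ (by isBoundedDefault)
    refine Eventually.frequently ?_
    filter_upwards [hev2, hφt.eventually_ge_atTop (j+1)] with i hm hmj
    set m := φ i with hmdef
    refine hm.trans ?_
    rw [rescaledLaw_apply m (isClosed_jumpPaths A ε j).measurableSet]
    refine measure_mono ?_
    rintro ω ⟨t, ht1, ht2, ht3⟩
    have hm1 : 1 ≤ m := by omega
    have hm0 : (0:ℝ) < m := by exact_mod_cast hm1
    have hK1 : 1 ≤ m^2 := Nat.one_le_pow _ _ hm1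
    have ht1' : 1 ≤ t - 1 := by omega
    have hm2 : (0:ℝ) < (m:ℝ)^2 := by positivity
    have htR : ((t - 1 : ℕ) : ℝ) = (t:ℝ) - 1 := by
      rw [Nat.cast_sub (by omega)]; simp
    have hlo : (m:ℝ)^2 ≤ (t:ℝ) - 1 := by
      rw [← htR]; exact_mod_cast (by omega : m^2 ≤ t - 1)
    have hhi : (t:ℝ) ≤ (A:ℝ) * (m:ℝ)^2 := by exact_mod_cast ht2
    let s' : Set.Ioi (0:ℝ) := ⟨((t - 1 : ℕ) : ℝ) / (m:ℝ)^2, by
      rw [Set.mem_Ioi]
      exact div_pos (by exact_mod_cast ht1') hm2⟩
    let t' : Set.Ioi (0:ℝ) := ⟨(t : ℝ) / (m:ℝ)^2, by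
      rw [Set.mem_Ioi]
      exact div_pos (by exact_mod_cast (by omega : 0 < t)) hm2⟩
    refine ⟨s', t', ?_, ?_, ?_, ?_, ?_, ?_⟩
    · simp only [s']; rw [le_div_iff₀ hm2, htR]; linarith
    · simp only [s']; rw [div_le_iff₀ hm2, htR]; linarith
    · simp only [t']; rw [le_div_iff₀ hm2]; linarith
    · simp only [t']; rw [div_le_iff₀ hm2]; linarith
    · simp only [s', t']
      rw [htR, ← sub_div, show (t:ℝ) - 1 - t = -1 by ring, abs_div, abs_neg, abs_one,
        abs_of_pos hm2]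
      apply one_div_le_one_div_of_le (by positivity)
      have h3 : ((j:ℝ) + 1) ≤ m := by exact_mod_cast hmj
      have h4 : (1:ℝ) ≤ m := by exact_mod_cast hm1
      nlinarith
    · rw [rescaledPath_at m t hm1 (by omega) ω t' rfl,
        rescaledPath_at m (t-1) hm1 ht1' ω s' rfl, ← sub_div, le_div_iff₀ hm0]
      have h5 : ((maxGroup (t-1) ω : ℝ) + ((m / (6 * B) : ℕ) : ℝ) + 1) ≤ maxGroup t ω := by
        exact_mod_cast ht3
      have h6 : (m:ℝ) / (6 * B) < ((m / (6 * B) : ℕ) : ℝ) + 1 := by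
        have := Nat.lt_floor_add_one ((m:ℝ) / ((6 * B : ℕ):ℝ))
        rw [Nat.floor_div_eq_div] at this
        push_cast at this
        exact this
      have h7 : ε * m = (m:ℝ) / (6 * B) := by rw [hε]; ring
      rw [h7]; linarith
  have hlim := tendsto_measure_iInter_atTop (μ := (ν : Measure PathSpace))
    (fun j => (isClosed_jumpPaths A ε j).measurableSet.nullMeasurableSet)
    (antitone_jumpPaths A ε) ⟨0, measure_ne_top _ _⟩
  rw [iInter_jumpPaths A ε hεpos, measure_empty] at hlim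
  have h8 : (1/8 : ℝ≥0∞) ≤ 0 := ge_of_tendsto' hlim hkey
  simp at h8

end Pool.Agent.Results.MP_d01e83_pr.NoFunctionalLimit
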